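import Pool.Agent.P.MP_95ea62_an.Main

set_option autoImplicit false

open MeasureTheory
open scoped ENNReal NNReal SchwartzMap

namespace Pool.Agent.Results.MP_95ea62_an.LeadingConstant

open Pool.Agent.P95ea62

/-- For `A` at least `2 √e (N |B_1| / p)^(1/p)`, the least constant in front of the seminorm of
order `t` is exactly one. -/
theorem result (N : ℕ) (hN : 1 ≤ N) (F : Type) [NormedAddCommGroup F] [NormedSpace ℝ F]
    [Nontrivial F] (p : ℝ) (hp : 1 ≤ p) (θ : ℝ) (h0 : 0 ≤ θ) (h1 : θ < 1) (A : ℝ≥0)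
    (hA : 2 * Real.exp (1 / 2) *
      (N * volume.real (Metric.ball (0 : EuclideanSpace ℝ (Fin N)) 1) / p) ^ (1 / p) ≤ A) :
    IsLeast {c : ℝ≥0 | ∀ s t : ℝ, θ < s → s < t → t < 1 →
      ∀ f : 𝓢(EuclideanSpace ℝ (Fin N), F),
        ENNReal.ofReal (min s (1 - s) ^ (1 / p)) * gagliardo s p f ≤
          A * eLpNorm f (ENNReal.ofReal p) volume +
            c * (ENNReal.ofReal (min t (1 - t) ^ (1 / p)) * gagliardo t p f)} 1 := by
  have : NeZero N := ⟨by omega⟩
  refine ⟨fun s t hs hst ht f => ?_,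
    fun c hc => lower (N := N) (F := F) hp h0 h1 A c fun s t hs hst ht f => ?_⟩
  · have hs0 := h0.trans_lt hs
    rw [weight_eq hp f.continuous hs0 (hst.trans ht), weight_eq hp f.continuous (hs0.trans hst) ht,
      norm_eq hp, ENNReal.coe_one, one_mul]
    exact upper' hp f.continuous hA hs0 hst ht
  · have hs0 := h0.trans_lt hs
    have h := hc s t hs hst ht f
    rwa [weight_eq hp f.continuous hs0 (hst.trans ht),
      weight_eq hp f.continuous (hs0.trans hst) ht, norm_eq hp] at h

end Pool.Agent.Results.MP_95ea62_an.LeadingConstant
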